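import Pool.Agent.Helper51.PF.Goals

/-!
# Packet PF-CB2 (project PF, MP_c27e85_nt): the total size of the forbidden sets
-/

set_option autoImplicit false

namespace Pool.Agent.Helper95.PF

open Finset Pool.Agent.Helper51.PF

section
variable (p s n0 : ℕ) [Fact p.Prime]

/-- the events -/
def Ev : Finset (Σ _ : ℕ, ZMod p) := (Ico 1 (hh p)).sigma fun m => tgt p n0 m

theorem mem_Ev (x : Σ _ : ℕ, ZMod p) : x ∈ Ev p n0 ↔
    (1 ≤ x.1 ∧ x.1 < hh p) ∧ x.2 ∈ tgt p n0 x.1 := by
  rw [Ev, mem_sigma, mem_Ico]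

theorem tgt_pm {p n0 m : ℕ} {d : ZMod p} (h : d ∈ tgt p n0 m) : d = 1 ∨ d = -1 := by
  unfold tgt at h
  split_ifs at h
  · right; simpa using h
  · simp at h
  · simp only [mem_insert, mem_singleton] at h
    rcases h with h | h
    · right; exact h
    · left; exact h
  · right; simpa using h

theorem odd_two (hp : 3 ≤ p) : p - 1 = 2 * hh p ∧ 1 ≤ hh p ∧ hh p < p := by
  have hpr : p.Prime := Fact.out
  have hodd : p % 2 = 1 := by
    rcases hpr.eq_two_or_odd with h | h
    · omega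
    · exact h
  unfold hh
  omega

theorem neg_one_ne (hp : 3 ≤ p) : (-1 : ZMod p) ≠ 1 := by
  have : Fact (2 < p) := ⟨hp⟩
  exact ZMod.neg_one_ne_one

/-- the number of the events -/
theorem card_Ev (hp : 3 ≤ p) (hn : n0 ≤ p - 2) :
    |((Ev p n0).card : ℝ) - cc p n0| ≤ 2 := by
  obtain ⟨h1, h2, h3⟩ := odd_two p hp
  have hne := neg_one_ne p hp
  unfold Ev
  rw [card_sigma]
  by_cases hlt : n0 < hh p
  · have hc : cc p n0 = n0 := by rw [cc, if_pos hlt]
    have hs : ∑ m ∈ Ico 1 (hh p), #(tgt p n0 m) = n0 := by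
      have e1 : ∀ m ∈ Ico 1 (hh p), #(tgt p n0 m) = if m ≤ n0 then 1 else 0 := by
        intro m _
        unfold tgt
        rw [if_pos hlt]
        split_ifs <;> simp
      rw [sum_congr rfl e1, sum_ite, sum_const_zero, add_zero, sum_const, smul_eq_mul, mul_one]
      have e2 : (Ico 1 (hh p)).filter (fun m => m ≤ n0) = Icc 1 n0 := by
        ext m
        simp only [mem_filter, mem_Ico, mem_Icc]
        omega
      rw [e2, Nat.card_Icc]
      omega
    rw [hs, hc, sub_self, abs_zero]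
    norm_num
  · have hc : cc p n0 = ((hh p : ℝ) + n0) / 2 := by rw [cc, if_neg hlt]
    have e1 : ∀ m ∈ Ico 1 (hh p), #(tgt p n0 m) =
        1 + if Even m ∧ p - 1 ≤ m + n0 then 1 else 0 := by
      intro m _
      unfold tgt
      rw [if_neg hlt]
      split_ifs
      · rw [card_pair hne]
      · simp
    have e2 : (Ico 1 (hh p)).filter (fun m => Even m ∧ p - 1 ≤ m + n0) =
        (Ico ((p - 1 - n0 + 1) / 2) ((hh p + 1) / 2)).image (fun j => 2 * j) := by
      ext m
      simp only [mem_filter, mem_Ico, mem_image]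
      constructor
      · rintro ⟨⟨ha, hb⟩, ⟨c, hc'⟩, hd⟩
        exact ⟨c, by omega, by omega⟩
      · rintro ⟨j, hj, rfl⟩
        exact ⟨by omega, ⟨j, by omega⟩, by omega⟩
    have e3 : #((Ico 1 (hh p)).filter (fun m => Even m ∧ p - 1 ≤ m + n0)) =
        (hh p + 1) / 2 - (p - 1 - n0 + 1) / 2 := by
      rw [e2, card_image_of_injective _ (fun a b hab => by simpa using hab), Nat.card_Ico]
    have e4 : ∑ m ∈ Ico 1 (hh p), #(tgt p n0 m) =
        (hh p - 1) + ((hh p + 1) / 2 - (p - 1 - n0 + 1) / 2) := by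
      rw [sum_congr rfl e1, sum_add_distrib, sum_const, Nat.card_Ico, smul_eq_mul, mul_one,
        sum_ite, sum_const_zero, add_zero, sum_const, smul_eq_mul, mul_one, e3]
    rw [e4, hc]
    obtain ⟨A, hA⟩ : ∃ A, A = (hh p - 1) + ((hh p + 1) / 2 - (p - 1 - n0 + 1) / 2) := ⟨_, rfl⟩
    have e5 : 2 * A ≤ hh p + n0 + 4 ∧ hh p + n0 ≤ 2 * A + 4 := by omega
    rw [← hA]
    have e6 : (2 : ℝ) * A ≤ hh p + n0 + 4 := by exact_mod_cast e5.1
    have e7 : (hh p : ℝ) + n0 ≤ 2 * A + 4 := by exact_mod_cast e5.2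
    rw [abs_le]
    constructor <;> linarith

end

section
variable {p s n0 : ℕ} [Fact p.Prime]

theorem fac_prod (m e : ℕ) : ((m + e).factorial : ZMod p) =
    (m.factorial : ZMod p) * ∏ i ∈ Icc 1 e, ((m : ZMod p) + (i : ZMod p)) := by
  induction e with
  | zero => simp
  | succ e ih =>
    rw [← add_assoc, Nat.factorial_succ, Nat.cast_mul, ih, prod_Icc_succ_top (by omega)]
    push_cast
    ring

theorem fac_ne {m : ℕ} (hm : m < p) : (m.factorial : ZMod p) ≠ 0 := by
  have hpr : p.Prime := Fact.out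
  rw [Ne, ZMod.natCast_eq_zero_iff, hpr.dvd_factorial]
  omega

theorem rr_le (hMV : G_MV) (h1 : 1 ≤ hh p) (hs : 1 ≤ s) (m : ℕ) : rr p s m ≤ kk p s := by
  obtain ⟨-, hc, -⟩ := hMV p s h1 hs
  rw [← hc]
  exact card_le_card (filter_subset _ _)

theorem prod_ne (hVV : G_VV) (hp : 3 ≤ p) (hs : 1 ≤ s) {r : ℕ} (hr : r ≤ kk p s) :
    ∏ j ∈ range r, (xx p s j : ZMod p) ≠ 0 := by
  rw [prod_ne_zero_iff]
  intro j hj
  rw [mem_range] at hj
  have := (hVV p s hp hs).1 ⟨j, lt_of_lt_of_le hj hr⟩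
  rw [← this]
  exact Units.ne_zero _

theorem Wm_ne (hMV : G_MV) (hVV : G_VV) (hp : 3 ≤ p) (hs : 1 ≤ s) {m : ℕ} (hm : m < hh p) :
    Wm p s m ≠ 0 := by
  obtain ⟨-, h2, h3⟩ := odd_two p hp
  exact div_ne_zero (fac_ne (hm.trans h3)) (prod_ne hVV hp hs (rr_le hMV h2 hs m))

theorem kk_pos : 1 ≤ kk p s := Nat.le_add_left 1 _

theorem rr_lt (hMV : G_MV) (h1 : 1 ≤ hh p) (hs : 1 ≤ s) {m : ℕ} (hm : m < hh p) :
    rr p s m < kk p s := by
  refine lt_of_le_of_ne (rr_le hMV h1 hs m) fun h => ?_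
  obtain ⟨-, -, -, -, hl, -, hr⟩ := hMV p s h1 hs
  have := ((hr m (kk p s) le_rfl).1 h).1
  have hk : 1 ≤ kk p s := kk_pos
  rcases this with h0 | h0
  · omega
  · rw [hl] at h0
    omega

theorem gap (hMV : G_MV) (h1 : 1 ≤ hh p) (hs : 1 ≤ s) {m m' r : ℕ} (hm : rr p s m = r)
    (hm' : rr p s m' = r) (hr1 : 1 ≤ r) (hr : r < kk p s) : m' < m + s := by
  obtain ⟨-, -, -, -, -, hx, hrr⟩ := hMV p s h1 hs
  have e1 := ((hrr m r hr.le).1 hm).1
  have e2 := ((hrr m' r hr.le).1 hm').2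
  have e3 : xx p s (r - 1) ≤ m := by rcases e1 with h | h <;> omega
  have e4 : m' < xx p s r := by rcases e2 with h | h <;> omega
  have e5 := hx (r - 1)
  rw [Nat.sub_add_cancel hr1] at e5
  omega

theorem early (hMV : G_MV) (h1 : 1 ≤ hh p) (hs : 1 ≤ s) {m : ℕ} (hm : rr p s m = 0) : m < s := by
  obtain ⟨-, -, -, hx0, -, -, hrr⟩ := hMV p s h1 hs
  have e2 := ((hrr m 0 (Nat.zero_le _)).1 hm).2
  have hk : 1 ≤ kk p s := kk_pos
  rcases e2 with h | h <;> omega

end

theorem g_cb2 (hMV : G_MV) (hVV : G_VV) (hROOT : G_ROOT) : G_CB2 := by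
  classical
  intro p s n0 _ hp hs hn
  obtain ⟨h1, h2, h3⟩ := odd_two p hp
  obtain ⟨F, hF⟩ : ∃ F : (Σ _ : ℕ, ZMod p) → ℕ × ZMod p,
      F = fun x => (rr p s x.1, x.2 / Wm p s x.1) := ⟨_, rfl⟩
  obtain ⟨E', hE'⟩ : ∃ E', E' = (Ev p n0).filter fun x => 1 ≤ rr p s x.1 := ⟨_, rfl⟩
  have hmem : ∀ x, x ∈ E' ↔ ((1 ≤ x.1 ∧ x.1 < hh p) ∧ x.2 ∈ tgt p n0 x.1) ∧ 1 ≤ rr p s x.1 := by
    intro x
    rw [hE', mem_filter, mem_Ev]
  -- the sum of the sizes is the size of an image
  have hsum : ∑ r ∈ Ico 1 (kk p s), #(BB p s n0 r) = #(E'.image F) := by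
    have e1 : #((Ico 1 (kk p s)).sigma fun r => BB p s n0 r) =
        ∑ r ∈ Ico 1 (kk p s), #(BB p s n0 r) := card_sigma _ _
    have e2 : ((Ico 1 (kk p s)).sigma fun r => BB p s n0 r).image
        (fun y : Σ _ : ℕ, (ZMod p)ˣ => (y.1, (y.2 : ZMod p))) = E'.image F := by
      ext ⟨r, g⟩
      rw [mem_image, mem_image]
      constructor
      · rintro ⟨⟨r', g'⟩, hy, hyg⟩
        rw [mem_sigma, mem_Ico] at hy
        obtain ⟨hr, hg⟩ := hy
        rw [Prod.mk.injEq] at hyg
        obtain ⟨rfl, rfl⟩ := hyg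
        unfold BB at hg
        rw [mem_filter] at hg
        obtain ⟨-, m, hm1, hm2, hmr, hmt⟩ := hg
        have hmr' : rr p s m = r' := hmr
        refine ⟨⟨m, Wm p s m * (g' : ZMod p)⟩, ?_, ?_⟩
        · rw [hmem]
          exact ⟨⟨⟨hm1, hm2⟩, hmt⟩, by rw [hmr']; exact hr.1⟩
        · rw [hF, Prod.mk.injEq]
          exact ⟨hmr', mul_div_cancel_left₀ _ (Wm_ne hMV hVV hp hs hm2)⟩
      · rintro ⟨⟨m, d⟩, hx, hxg⟩
        rw [hmem] at hx
        obtain ⟨⟨⟨hm1, hm2⟩, hmt⟩, hr1⟩ := hx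
        rw [hF, Prod.mk.injEq] at hxg
        obtain ⟨hr, hg⟩ := hxg
        have hW := Wm_ne hMV hVV hp hs hm2
        have hmt0 : d ∈ tgt p n0 m := hmt
        have hd : d ≠ 0 := by
          rcases tgt_pm hmt0 with h | h
          · rw [h]; exact one_ne_zero
          · rw [h]; exact neg_ne_zero.2 one_ne_zero
        have hg0 : g ≠ 0 := by
          rw [← hg]; exact div_ne_zero hd hW
        refine ⟨⟨r, Units.mk0 g hg0⟩, ?_, rfl⟩
        rw [mem_sigma, mem_Ico]
        refine ⟨⟨?_, ?_⟩, ?_⟩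
        · change 1 ≤ r
          rw [← hr]; exact hr1
        · change r < kk p s
          rw [← hr]; exact rr_lt hMV h2 hs hm2
        · change Units.mk0 g hg0 ∈ BB p s n0 r
          unfold BB
          rw [mem_filter]
          refine ⟨mem_univ _, m, hm1, hm2, hr, ?_⟩
          rw [Units.val_mk0, ← hg]
          have : Wm p s m * (d / Wm p s m) = d := mul_div_cancel₀ _ hW
          rw [this]
          exact hmt
    rw [← e1, ← e2, card_image_of_injective]
    rintro ⟨r, g⟩ ⟨r', g'⟩ h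
    rw [Prod.mk.injEq] at h
    obtain ⟨ha, hb⟩ := h
    have ha' : r = r' := ha
    subst ha'
    have hb' : g = g' := Units.ext hb
    subst hb'
    rfl
  -- collisions
  obtain ⟨Bad, hBad⟩ : ∃ Bad, Bad = E'.filter fun x => ∃ y ∈ E', y.1 < x.1 ∧ F y = F x := ⟨_, rfl⟩
  have hinj : Set.InjOn F ((E' \ Bad : Finset (Σ _ : ℕ, ZMod p)) : Set (Σ _ : ℕ, ZMod p)) := by
    rintro ⟨m, d⟩ hx ⟨m', d'⟩ hy hxy
    rw [mem_coe, mem_sdiff, hBad, mem_filter] at hx hy
    rcases lt_trichotomy m m' with h | h | h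
    · exact absurd ⟨hy.1, _, hx.1, h, hxy⟩ hy.2
    · subst h
      rw [hF, Prod.mk.injEq] at hxy
      have hm2 := ((hmem _).1 hx.1).1.1.2
      have hW := Wm_ne hMV hVV hp hs hm2
      have : d = d' := by
        have h4 : d / Wm p s m = d' / Wm p s m := hxy.2
        exact (div_left_inj' hW).1 h4
      rw [this]
    · exact absurd ⟨hx.1, _, hy.1, h, hxy.symm⟩ hx.2
  have hBadc : #Bad ≤ 2 * s ^ 2 := by
    obtain ⟨R, hR⟩ : ∃ R : ℕ → Finset ℕ, R = fun e : ℕ =>
        (range p).filter (fun m : ℕ => ∏ i ∈ Finset.Icc 1 e, ((m : ZMod p) + (i : ZMod p)) = 1) ∪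
        (range p).filter (fun m : ℕ => ∏ i ∈ Icc 1 e, ((m : ZMod p) + (i : ZMod p)) = -1) :=
      ⟨_, rfl⟩
    have hRc : ∀ e, 1 ≤ e → #(R e) ≤ 2 * e := by
      intro e he
      rw [hR]
      refine (card_union_le _ _).trans ?_
      have a1 := hROOT p e 1 he
      have a2 := hROOT p e (-1) he
      omega
    have hsub : Bad ⊆ (Ico 1 s).biUnion fun e =>
        ((R e) ×ˢ ({1, -1} : Finset (ZMod p))).image fun y => (⟨y.1 + e, y.2⟩ : Σ _ : ℕ, ZMod p) := by
      rintro ⟨m', d'⟩ hx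
      rw [hBad, mem_filter] at hx
      obtain ⟨hx, ⟨m, d⟩, hy, hlt, hxy⟩ := hx
      have hlt' : m < m' := hlt
      obtain ⟨⟨⟨hm1', hm2'⟩, hmt'⟩, hr1'⟩ := (hmem _).1 hx
      obtain ⟨⟨⟨hm1, hm2⟩, hmt⟩, hr1⟩ := (hmem _).1 hy
      rw [hF, Prod.mk.injEq] at hxy
      obtain ⟨hrr, hdd⟩ := hxy
      have hrr' : rr p s m = rr p s m' := hrr
      have hgap := gap hMV h2 hs (r := rr p s m') hrr' rfl hr1' (rr_lt hMV h2 hs hm2')
      rw [mem_biUnion]
      refine ⟨m' - m, mem_Ico.2 ⟨by omega, by omega⟩, ?_⟩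
      rw [mem_image]
      have hW := Wm_ne hMV hVV hp hs hm2
      have hW' := Wm_ne hMV hVV hp hs hm2'
      have hme : m + (m' - m) = m' := by omega
      have hprod : d * ∏ i ∈ Icc 1 (m' - m), ((m : ZMod p) + (i : ZMod p)) = d' := by
        have e1 : d / Wm p s m = d' / Wm p s m' := hdd
        have e2 : Wm p s m' = Wm p s m *
            ∏ i ∈ Icc 1 (m' - m), ((m : ZMod p) + (i : ZMod p)) := by
          unfold Wm
          rw [← hrr']
          have := fac_prod (p := p) m (m' - m)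
          rw [hme] at this
          rw [this]
          ring
        rw [div_eq_div_iff hW hW', e2] at e1
        have e3 : Wm p s m * (d * ∏ i ∈ Icc 1 (m' - m), ((m : ZMod p) + (i : ZMod p))) =
            Wm p s m * d' := by
          rw [← mul_comm d' (Wm p s m), ← e1]
          ring
        exact mul_left_cancel₀ hW e3
      refine ⟨(m, d'), ?_, ?_⟩
      · rw [mem_product]
        refine ⟨?_, ?_⟩
        · rw [hR, mem_union, mem_filter, mem_filter, mem_range]
          have hmh : m < hh p := hm2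
          have hmp : m < p := by omega
          have hmt0 : d ∈ tgt p n0 m := hmt
          have hmt0' : d' ∈ tgt p n0 m' := hmt'
          rcases tgt_pm hmt0 with h | h <;> rcases tgt_pm hmt0' with h' | h'
          · left; rw [h, h', one_mul] at hprod; exact ⟨hmp, hprod⟩
          · right; rw [h, h', one_mul] at hprod; exact ⟨hmp, hprod⟩
          · right; rw [h, h'] at hprod
            refine ⟨hmp, ?_⟩
            rw [← hprod]; ring
          · left; rw [h, h'] at hprod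
            refine ⟨hmp, ?_⟩
            have := congrArg (fun z => -z) hprod
            simpa using this
        · rw [mem_insert, mem_singleton]
          exact tgt_pm hmt'
      · change (⟨m + (m' - m), d'⟩ : Σ _ : ℕ, ZMod p) = ⟨m', d'⟩
        rw [hme]
    refine (card_le_card hsub).trans (card_biUnion_le.trans ?_)
    have e1 : ∀ e ∈ Ico 1 s, #(((R e) ×ˢ ({1, -1} : Finset (ZMod p))).image
        fun y => (⟨y.1 + e, y.2⟩ : Σ _ : ℕ, ZMod p)) ≤ 4 * e := by
      intro e he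
      refine card_image_le.trans ?_
      rw [card_product]
      have a1 := hRc e (mem_Ico.1 he).1
      have a2 : #({1, -1} : Finset (ZMod p)) ≤ 2 := card_le_two
      calc #(R e) * #({1, -1} : Finset (ZMod p)) ≤ (2 * e) * 2 := Nat.mul_le_mul a1 a2
        _ = 4 * e := by ring
    refine (sum_le_sum e1).trans ?_
    have e2 : ∀ t : ℕ, ∑ e ∈ Ico 1 t, 4 * e ≤ 2 * t ^ 2 := by
      intro t
      induction t with
      | zero => simp
      | succ t ih =>
        rcases Nat.eq_zero_or_pos t with h | h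
        · subst h; simp
        · rw [sum_Ico_succ_top (by omega)]
          nlinarith
    exact e2 s
  have hearly : #(Ev p n0) ≤ #E' + 2 * s := by
    have e1 : #((Ev p n0).filter fun x => ¬ 1 ≤ rr p s x.1) ≤ 2 * s := by
      have hsub : ((Ev p n0).filter fun x => ¬ 1 ≤ rr p s x.1) ⊆
          ((range s) ×ˢ ({1, -1} : Finset (ZMod p))).image
            fun y => (⟨y.1, y.2⟩ : Σ _ : ℕ, ZMod p) := by
        rintro ⟨m, d⟩ hx
        rw [mem_filter, mem_Ev] at hx
        obtain ⟨⟨-, hmt⟩, hr⟩ := hx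
        have hr0 : rr p s m = 0 := by
          have : ¬ 1 ≤ rr p s m := hr
          omega
        rw [mem_image]
        refine ⟨(m, d), ?_, rfl⟩
        rw [mem_product, mem_range, mem_insert, mem_singleton]
        exact ⟨early hMV h2 hs hr0, tgt_pm hmt⟩
      refine (card_le_card hsub).trans (card_image_le.trans ?_)
      rw [card_product, card_range]
      have a2 : #({1, -1} : Finset (ZMod p)) ≤ 2 := card_le_two
      calc s * #({1, -1} : Finset (ZMod p)) ≤ s * 2 := Nat.mul_le_mul_left s a2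
        _ = 2 * s := by ring
    have e2 := card_filter_add_card_filter_not (s := Ev p n0) (fun x => 1 ≤ rr p s x.1)
    rw [← hE'] at e2
    omega
  have hE'le : #E' ≤ #(Ev p n0) := by rw [hE']; exact card_le_card (filter_subset _ _)
  have hup : #(E'.image F) ≤ #E' := card_image_le
  have hlow : #E' ≤ #(E'.image F) + 2 * s ^ 2 := by
    have e1 : #(E' \ Bad) ≤ #(E'.image F) := by
      rw [← card_image_of_injOn hinj]
      exact card_le_card (image_subset_image sdiff_subset)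
    have e2 : #E' ≤ #(E' \ Bad) + #Bad := by
      have := card_le_card_sdiff_add_card (s := E') (t := Bad)
      exact this
    omega
  have hEv := card_Ev p n0 hp hn
  have hcast : (∑ r ∈ Ico 1 (kk p s), (#(BB p s n0 r) : ℝ)) = (#(E'.image F) : ℝ) := by
    rw [← hsum]
    push_cast
    rfl
  rw [hcast]
  have c1 : (#(E'.image F) : ℝ) ≤ #(Ev p n0) := by exact_mod_cast hup.trans hE'le
  have c2 : (#(Ev p n0) : ℝ) ≤ #(E'.image F) + 2 * (s : ℝ) ^ 2 + 2 * s := by
    have : #(Ev p n0) ≤ #(E'.image F) + 2 * s ^ 2 + 2 * s := by omega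
    exact_mod_cast this
  rw [abs_le] at hEv ⊢
  obtain ⟨b1, b2⟩ := hEv
  have c3 : (0 : ℝ) ≤ 2 * (s : ℝ) ^ 2 + 2 * s := by positivity
  constructor <;> linarith

end Pool.Agent.Helper95.PF
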